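import Pool.Agent.Y315.RE.Swept

/-!
# The meet of the harmonic measures of a set system

Let `n ≥ 3` and let `D_1, …, D_N ⊆ ℝⁿ` be sets such that no two points of `ℝⁿ` hit all of them: for
all points `p`, `q` (equal or not) some `D_i` contains neither `p` nor `q`. Then the harmonic
measures `ω_i = ω(D_i, x_i)`, `x_i ∈ D_i`, satisfy `ω_1 ∧ … ∧ ω_N = 0`.

Three pairwise disjoint sets form such a system: this is Q1 of the problem (answer: yes). The sets
need not be disjoint in general: if `A_1, …, A_7` are pairwise disjoint and `D_i` is the union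
of the four `A_j` with `j` off the `i`-th line of the Fano plane, any two of the `D_i` meet.
-/

set_option autoImplicit false

namespace Pool.Agent.Results.MP_291eb9_an.SetSystems

open Pool.Agent.Helper486.TP

/-- If no two points of `ℝⁿ`, `n ≥ 3`, hit all the sets `D i` of a finite family (in particular
if the family consists of three pairwise disjoint fine domains), then the harmonic measures
`ω i = ω(D i, x i)`, `x i ∈ D i`, have lattice infimum zero. -/
theorem result (n : ℕ) (hn : 3 ≤ n) (N : ℕ) (D : Fin N → Set (E n))
    (hD : ∀ p q : E n, ∃ i, p ∉ D i ∧ q ∉ D i) (x : Fin N → E n) (hx : ∀ i, x i ∈ D i)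
    (ω : Fin N → MeasureTheory.Measure (E n)) (hω : ∀ i, IsHarmonicMeasure (D i) (x i) (ω i)) :
    ⨅ i, ω i = 0 :=
  Pool.Agent.Y315.RE.swept_sys hn D hD x hx ω hω _ (fun i => iInf_le ω i)

end Pool.Agent.Results.MP_291eb9_an.SetSystems
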